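import Pool.Agent.H42.BH.BlocksB

/-! The block part: conclusions. -/

open Pool.Agent.H83.Blk Finset Cardinal

namespace Pool.Agent.H42.BH

variable {X : Type} [NormedAddCommGroup X] [NormedSpace ℝ X] {e : ℕ → X}

/-- absolute values -/
lemma norm_abs (h : UB e) (a : ℕ →₀ ℝ) (s : Finset ℕ) (hs : a.support ⊆ s) :
    ‖Finsupp.linearCombination ℝ e a‖ = ‖∑ n ∈ s, |a n| • e n‖ := by
  classical
  have h1 := pc_unc h (fun n => if 0 ≤ a n then 1 else -1)
    (fun n => by by_cases hn : 0 ≤ a n <;> simp [hn]) s a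
  rw [Finsupp.linearCombination_apply, Finsupp.sum_of_support_subset a hs (fun n r => r • e n)
    (fun n _ => zero_smul _ _), ← h1]
  congr 1
  refine Finset.sum_congr rfl fun n _ => ?_
  by_cases hn : 0 ≤ a n
  · simp [hn, abs_of_nonneg hn]
  · simp [hn, abs_of_neg (not_le.mp hn)]

theorem Small.blocks {C : Set ((ℕ → ℕ) × (ℕ → ℝ))} (H : Small e C) (m : ℕ) (a b : ℕ →₀ ℝ)
    (ha : ∀ i, a i ≠ 0 → i < m) (hb : ∀ i, b i ≠ 0 → m ≤ i) :
    ‖Finsupp.linearCombination ℝ e a + Finsupp.linearCombination ℝ e b‖ =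
      ‖‖Finsupp.linearCombination ℝ e a‖ • e 0 + ‖Finsupp.linearCombination ℝ e b‖ • e 1‖ := by
  classical
  set s := ‖Finsupp.linearCombination ℝ e a‖ with hs
  set t := ‖Finsupp.linearCombination ℝ e b‖ with ht
  by_cases hs0 : s = 0
  · have h1 : Finsupp.linearCombination ℝ e a = 0 := norm_eq_zero.mp hs0
    rw [h1, hs0, zero_add, zero_smul, zero_add, norm_smul, H.ub.nrm, mul_one, ht, norm_norm]
  by_cases ht0 : t = 0
  · have h1 : Finsupp.linearCombination ℝ e b = 0 := norm_eq_zero.mp ht0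
    rw [h1, ht0, add_zero, zero_smul, add_zero, norm_smul, H.ub.nrm, mul_one, hs, norm_norm]
  have hspos : 0 < s := lt_of_le_of_ne (norm_nonneg _) (Ne.symm hs0)
  have htpos : 0 < t := lt_of_le_of_ne (norm_nonneg _) (Ne.symm ht0)
  have hane : ∃ i, a i ≠ 0 := by
    by_contra hcon
    push Not at hcon
    have : a = 0 := Finsupp.ext hcon
    rw [this, map_zero, norm_zero] at hs
    exact hs0 hs
  have hbne : ∃ i, b i ≠ 0 := by
    by_contra hcon
    push Not at hcon
    have : b = 0 := Finsupp.ext hcon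
    rw [this, map_zero, norm_zero] at ht
    exact ht0 ht
  obtain ⟨i0, hi0⟩ := hane
  obtain ⟨j0, hj0⟩ := hbne
  have hm : 0 < m := lt_of_le_of_lt (Nat.zero_le _) (ha i0 hi0)
  set m' := b.support.sup id + 1 with hm'
  have hbm : ∀ i, b i ≠ 0 → i < m' := by
    intro i hi
    have : i ≤ b.support.sup id := Finset.le_sup (f := id) (Finsupp.mem_support_iff.mpr hi)
    omega
  have hmm : m < m' := lt_of_le_of_lt (hb j0 hj0) (hbm j0 hj0)
  have sa : a.support ⊆ Finset.Ico 0 m := by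
    intro i hi
    rw [Finsupp.mem_support_iff] at hi
    simpa using ha i hi
  have sb : b.support ⊆ Finset.Ico m m' := by
    intro i hi
    rw [Finsupp.mem_support_iff] at hi
    rw [Finset.mem_Ico]
    exact ⟨hb i hi, hbm i hi⟩
  have ea : s = ‖pc e 0 m (fun n => |a n|)‖ := norm_abs H.ub a _ sa
  have eb : t = ‖pc e m m' (fun n => |b n|)‖ := norm_abs H.ub b _ sb
  have sab : (a + b).support ⊆ Finset.Ico 0 m' := by
    refine Finsupp.support_add.trans (Finset.union_subset ?_ ?_)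
    · exact sa.trans (Finset.Ico_subset_Ico_right hmm.le)
    · exact sb.trans (Finset.Ico_subset_Ico_left (Nat.zero_le _))
  have eab : ‖Finsupp.linearCombination ℝ e a + Finsupp.linearCombination ℝ e b‖ =
      ‖pc e 0 m (fun n => |a n|) + pc e m m' (fun n => |b n|)‖ := by
    rw [← map_add, norm_abs H.ub (a + b) _ sab]
    congr 1
    unfold pc
    rw [← Finset.sum_Ico_consecutive _ (Nat.zero_le m) hmm.le]
    congr 1
    · refine Finset.sum_congr rfl fun n hn => ?_
      have h1 : n < m := (Finset.mem_Ico.mp hn).2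
      have h2 : b n = 0 := by
        by_contra hne
        have := hb n hne
        omega
      rw [Finsupp.add_apply, h2, add_zero]
    · refine Finset.sum_congr rfl fun n hn => ?_
      have h1 : m ≤ n := (Finset.mem_Ico.mp hn).1
      have h2 : a n = 0 := by
        by_contra hne
        have := ha n hne
        omega
      rw [Finsupp.add_apply, h2, zero_add]
  have h3 := H.two hm hmm (x := fun n => s⁻¹ * |a n|) (y := fun n => t⁻¹ * |b n|)
    (fun n => mul_nonneg (inv_nonneg.mpr hspos.le) (abs_nonneg _))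
    (fun n => mul_nonneg (inv_nonneg.mpr htpos.le) (abs_nonneg _))
    (by rw [pc_smul, norm_smul, ← ea, norm_inv, Real.norm_eq_abs, abs_of_pos hspos,
          inv_mul_cancel₀ hs0])
    (by rw [pc_smul, norm_smul, ← eb, norm_inv, Real.norm_eq_abs, abs_of_pos htpos,
          inv_mul_cancel₀ ht0]) s t
  rw [pc_smul, pc_smul, smul_smul, smul_smul, mul_inv_cancel₀ hs0, mul_inv_cancel₀ ht0, one_smul,
    one_smul] at h3
  rw [eab, h3]

/-- representatives of the isometry classes of block subspaces -/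
theorem reps (e : ℕ → X) :
    (∃ F : ℝ → (ℕ → ℕ) × (ℕ → ℝ), (∀ t, IsNBlk e (F t).1 (F t).2) ∧
      ∀ s t, s ≠ t → IsEmpty (blkSpan e (F s).1 (F s).2 ≃ₗᵢ[ℝ] blkSpan e (F t).1 (F t).2)) ∨
    (∃ C : Set ((ℕ → ℕ) × (ℕ → ℝ)), #C < 𝔠 ∧ (∀ w ∈ C, IsNBlk e w.1 w.2) ∧
      ∀ p b, IsNBlk e p b → ∃ w ∈ C, Nonempty (blkSpan e p b ≃ₗᵢ[ℝ] blkSpan e w.1 w.2)) := by
  classical
  let W := {w : (ℕ → ℕ) × (ℕ → ℝ) // IsNBlk e w.1 w.2}
  let S : Setoid W :=
    { r := fun v w => Nonempty (blkSpan e v.1.1 v.1.2 ≃ₗᵢ[ℝ] blkSpan e w.1.1 w.1.2)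
      iseqv := ⟨fun v => ⟨LinearIsometryEquiv.refl ℝ _⟩, fun ⟨T⟩ => ⟨T.symm⟩,
        fun ⟨T⟩ ⟨T'⟩ => ⟨T.trans T'⟩⟩ }
  let g : Quotient S → (ℕ → ℕ) × (ℕ → ℝ) := fun q => (q.out).1
  have hg : Function.Injective g := by
    intro q q' hqq
    have h1 : q.out = q'.out := Subtype.ext hqq
    rw [← Quotient.out_eq q, ← Quotient.out_eq q', h1]
  have hcard : #(Set.range g) = #(Quotient S) := Cardinal.mk_range_eq g hg
  rcases lt_or_ge #(Set.range g) 𝔠 with hlt | hge
  · right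
    refine ⟨Set.range g, hlt, ?_, ?_⟩
    · rintro _ ⟨q, rfl⟩
      exact (q.out).2
    · intro p b hb
      let v : W := ⟨(p, b), hb⟩
      refine ⟨g (Quotient.mk S v), ⟨_, rfl⟩, ?_⟩
      have h2 : S.r (Quotient.mk S v).out v := Quotient.mk_out v
      obtain ⟨T⟩ := h2
      exact ⟨T.symm⟩
  · left
    rw [hcard, ← Cardinal.mk_real] at hge
    obtain ⟨f⟩ : Nonempty (ℝ ↪ Quotient S) := hge
    refine ⟨fun t => g (f t), fun t => (f t).out.2, ?_⟩
    intro s t hst
    refine ⟨fun T => hst (f.injective ?_)⟩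
    rw [← Quotient.out_eq (f s), ← Quotient.out_eq (f t)]
    exact Quotient.sound ⟨T⟩

end Pool.Agent.H42.BH
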