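import Pool.Agent.H83.Blk.Defs

/-! Normalized block sequences of a 1-unconditional basis are 1-unconditional bases of
their closed spans. -/

open Pool.Agent.H83.Blk Finset

namespace Pool.Agent.H42.BH

variable {X : Type} [NormedAddCommGroup X] [NormedSpace ℝ X]

/-- the index of the block which contains `n` -/
def blkIdx (p : ℕ → ℕ) (n : ℕ) : ℕ := Nat.findGreatest (fun k => p k ≤ n) n

lemma blkIdx_eq {p : ℕ → ℕ} (hp : StrictMono p) {k n : ℕ} (hn : n ∈ Finset.Ico (p k) (p (k + 1))) :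
    blkIdx p n = k := by
  rw [Finset.mem_Ico] at hn
  unfold blkIdx
  have hk : k ≤ n := le_trans hp.le_apply hn.1
  rw [Nat.findGreatest_eq_iff]
  refine ⟨hk, fun _ => hn.1, ?_⟩
  intro j hj _ hle
  have : p (k + 1) ≤ p j := hp.monotone hj
  omega

/-- the coefficients in `e` of a combination of blocks -/
noncomputable def blkCoef (p : ℕ → ℕ) (b : ℕ → ℝ) (a : ℕ →₀ ℝ) : ℕ →₀ ℝ :=
  a.sum fun k r => ∑ n ∈ Finset.Ico (p k) (p (k + 1)), Finsupp.single n (r * b n)

lemma lc_blkCoef (v : ℕ → X) (p : ℕ → ℕ) (b : ℕ → ℝ) (a : ℕ →₀ ℝ) :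
    Finsupp.linearCombination ℝ v (blkCoef p b a) =
      a.sum fun k r => r • ∑ n ∈ Finset.Ico (p k) (p (k + 1)), b n • v n := by
  unfold blkCoef
  rw [map_finsuppSum]
  refine Finsupp.sum_congr fun k _ => ?_
  rw [map_sum, Finset.smul_sum]
  refine Finset.sum_congr rfl fun n _ => ?_
  rw [Finsupp.linearCombination_single, smul_smul]

lemma blk_mem (e : ℕ → X) (p : ℕ → ℕ) (b : ℕ → ℝ) (k : ℕ) : blk e p b k ∈ blkSpan e p b :=
  Submodule.le_topologicalClosure _ (Submodule.subset_span ⟨k, rfl⟩)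

/-- the blocks as elements of their closed span -/
def blkV (e : ℕ → X) (p : ℕ → ℕ) (b : ℕ → ℝ) (k : ℕ) : blkSpan e p b :=
  ⟨blk e p b k, blk_mem e p b k⟩

lemma coe_lc_blkV (e : ℕ → X) (p : ℕ → ℕ) (b : ℕ → ℝ) (ε : ℕ → ℝ) (a : ℕ →₀ ℝ) :
    ((Finsupp.linearCombination ℝ (fun k => ε k • blkV e p b k) a : blkSpan e p b) : X) =
      a.sum fun k r => r • (ε k • blk e p b k) := by
  have h1 := Finsupp.apply_linearCombination ℝ (blkSpan e p b).subtype
    (fun k => ε k • blkV e p b k) a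
  rw [Submodule.subtype_apply] at h1
  rw [h1, Finsupp.linearCombination_apply]
  rfl

lemma coe_lc_blkV' (e : ℕ → X) (p : ℕ → ℕ) (b : ℕ → ℝ) (a : ℕ →₀ ℝ) :
    ((Finsupp.linearCombination ℝ (blkV e p b) a : blkSpan e p b) : X) =
      a.sum fun k r => r • blk e p b k := by
  have h1 := coe_lc_blkV e p b (fun _ => 1) a
  simp only [one_smul] at h1
  exact h1

theorem ub_blkV {e : ℕ → X} (h : UB e) {p : ℕ → ℕ} {b : ℕ → ℝ} (hb : IsNBlk e p b) :
    UB (blkV e p b) := by
  refine ⟨fun n => hb.2 n, ?_, ?_⟩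
  · intro ε hε a
    change ‖((Finsupp.linearCombination ℝ (fun k => ε k • blkV e p b k) a : blkSpan e p b) : X)‖
      = ‖((Finsupp.linearCombination ℝ (blkV e p b) a : blkSpan e p b) : X)‖
    rw [coe_lc_blkV, coe_lc_blkV']
    have h2 := h.unc (fun n => ε (blkIdx p n)) (fun n => hε _) (blkCoef p b a)
    rw [lc_blkCoef, lc_blkCoef] at h2
    rw [show (a.sum fun k r => r • blk e p b k) =
      a.sum fun k r => r • ∑ n ∈ Finset.Ico (p k) (p (k + 1)), b n • e n from rfl, ← h2]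
    congr 1
    refine Finsupp.sum_congr fun k _ => ?_
    congr 1
    rw [blk, Finset.smul_sum]
    refine Finset.sum_congr rfl fun n hn => ?_
    rw [blkIdx_eq hb.1 hn, smul_comm]
  · rw [DenseRange, Subtype.dense_iff]
    intro x hx
    have h3 : x ∈ closure ((Submodule.span ℝ (Set.range (blk e p b)) : Submodule ℝ X) : Set X) := by
      rw [← Submodule.topologicalClosure_coe]; exact hx
    refine closure_mono ?_ h3
    intro y hy
    rw [SetLike.mem_coe, Finsupp.mem_span_range_iff_exists_finsupp] at hy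
    obtain ⟨c, hc⟩ := hy
    refine ⟨Finsupp.linearCombination ℝ (blkV e p b) c, ⟨c, rfl⟩, ?_⟩
    rw [coe_lc_blkV', hc]

end Pool.Agent.H42.BH
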