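import Mathlib

/-! Reflection vectors and the invariant inner product on finite dimensional spaces. -/

open MeasureTheory

namespace Pool.Agent.H42.BH

/-- `e` is a reflection vector with functional `φ`. -/
def Refl {Z : Type*} [NormedAddCommGroup Z] [NormedSpace ℝ Z] (e : Z) (φ : Z →L[ℝ] ℝ) : Prop :=
  ‖e‖ = 1 ∧ φ e = 1 ∧ ∀ x, ‖x - (2 * φ x) • e‖ = ‖x‖

section basic
variable {Z : Type*} [NormedAddCommGroup Z] [NormedSpace ℝ Z]

lemma Refl.abs_le {e : Z} {φ : Z →L[ℝ] ℝ} (h : Refl e φ) (x : Z) : |φ x| ≤ ‖x‖ := by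
  obtain ⟨h1, h2, h3⟩ := h
  have h4 : ‖(2 * φ x) • e‖ = 2 * |φ x| := by
    rw [norm_smul, h1, mul_one, Real.norm_eq_abs, abs_mul, abs_two]
  have h5 : (2 * φ x) • e = x - (x - (2 * φ x) • e) := by abel
  have h6 : ‖(2 * φ x) • e‖ ≤ ‖x‖ + ‖x‖ := by
    calc ‖(2 * φ x) • e‖ = ‖x - (x - (2 * φ x) • e)‖ := by rw [← h5]
      _ ≤ ‖x‖ + ‖x - (2 * φ x) • e‖ := norm_sub_le _ _
      _ = ‖x‖ + ‖x‖ := by rw [h3]
  linarith

lemma Refl.ne_zero {e : Z} {φ : Z →L[ℝ] ℝ} (h : Refl e φ) : e ≠ 0 := by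
  intro h0
  have := h.1
  rw [h0, norm_zero] at this
  exact zero_ne_one this

/-- transport of reflection vectors by isometries -/
lemma Refl.map {W : Type*} [NormedAddCommGroup W] [NormedSpace ℝ W] {e : Z} {φ : Z →L[ℝ] ℝ}
    (h : Refl e φ) (T : Z ≃ₗᵢ[ℝ] W) :
    Refl (T e) (φ.comp (T.symm.toContinuousLinearEquiv : W →L[ℝ] Z)) := by
  obtain ⟨h1, h2, h3⟩ := h
  refine ⟨by simpa using h1, by simpa using h2, fun x => ?_⟩
  obtain ⟨y, rfl⟩ := T.surjective x
  have := h3 y
  simp only [ContinuousLinearMap.comp_apply]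
  have h4 : ((T.symm.toContinuousLinearEquiv : W →L[ℝ] Z) (T y)) = y := by simp
  rw [h4, ← map_smul, ← map_sub, LinearIsometryEquiv.norm_map, this, LinearIsometryEquiv.norm_map]

/-- restriction to a subspace -/
lemma Refl.restrict {e : Z} {φ : Z →L[ℝ] ℝ} (h : Refl e φ) (Q : Submodule ℝ Z) (he : e ∈ Q) :
    Refl (⟨e, he⟩ : Q) (φ.comp Q.subtypeL) := by
  obtain ⟨h1, h2, h3⟩ := h
  exact ⟨h1, h2, fun x => h3 x⟩

end basic

section form
variable (E : Type*) [NormedAddCommGroup E] [NormedSpace ℝ E] [FiniteDimensional ℝ E]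

theorem exists_form : ∃ B : E →ₗ[ℝ] E →ₗ[ℝ] ℝ, (∀ x y, B x y = B y x) ∧
    (∀ x, x ≠ 0 → 0 < B x x) ∧
    ∀ (v : E) (φ : E →L[ℝ] ℝ), Refl v φ → ∀ x, φ x * B v v = B x v := by
  classical
  let _ : MeasurableSpace (E →L[ℝ] ℝ) := borel _
  have _ : BorelSpace (E →L[ℝ] ℝ) := ⟨rfl⟩
  have _ : FiniteDimensional ℝ (E →L[ℝ] ℝ) := inferInstance
  have _ : ProperSpace (E →L[ℝ] ℝ) := FiniteDimensional.proper ℝ _
  let μ : Measure (E →L[ℝ] ℝ) := Measure.addHaar
  let S : Set (E →L[ℝ] ℝ) := Metric.closedBall 0 1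
  have hS : IsCompact S := isCompact_closedBall _ _
  have hcont : ∀ x y : E, Continuous (fun φ : E →L[ℝ] ℝ => φ x * φ y) := by
    intro x y
    exact (ContinuousLinearMap.apply ℝ ℝ x).continuous.mul
      (ContinuousLinearMap.apply ℝ ℝ y).continuous
  have hint : ∀ x y : E, IntegrableOn (fun φ : E →L[ℝ] ℝ => φ x * φ y) S μ := by
    intro x y
    exact (hcont x y).continuousOn.integrableOn_compact hS
  let B : E →ₗ[ℝ] E →ₗ[ℝ] ℝ := LinearMap.mk₂ ℝ (fun x y => ∫ φ in S, φ x * φ y ∂μ)
    (by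
      intro x x' y
      rw [← integral_add (hint x y) (hint x' y)]
      congr 1; funext φ; rw [map_add]; ring)
    (by
      intro c x y
      rw [smul_eq_mul, ← integral_const_mul]
      congr 1; funext φ; rw [map_smul, smul_eq_mul]; ring)
    (by
      intro x y y'
      rw [← integral_add (hint x y) (hint x y')]
      congr 1; funext φ; rw [map_add]; ring)
    (by
      intro c x y
      rw [smul_eq_mul, ← integral_const_mul]
      congr 1; funext φ; rw [map_smul, smul_eq_mul]; ring)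
  have hB : ∀ x y, B x y = ∫ φ in S, φ x * φ y ∂μ := fun x y => rfl
  refine ⟨B, ?_, ?_, ?_⟩
  · intro x y
    rw [hB, hB]
    congr 1; funext φ; ring
  · intro x hx
    rw [hB]
    rw [setIntegral_pos_iff_support_of_nonneg_ae]
    · -- find a small functional which does not vanish at x
      obtain ⟨g, hg1, hg2⟩ := exists_dual_vector ℝ x (norm_ne_zero_iff.mpr hx)
      have hU : IsOpen (Metric.ball (0 : E →L[ℝ] ℝ) 1 ∩ {φ : E →L[ℝ] ℝ | φ x * φ x ≠ 0}) := by
        refine Metric.isOpen_ball.inter ?_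
        exact isOpen_ne_fun (hcont x x) continuous_const
      have hne : (Metric.ball (0 : E →L[ℝ] ℝ) 1 ∩ {φ : E →L[ℝ] ℝ | φ x * φ x ≠ 0}).Nonempty := by
        refine ⟨(1/2 : ℝ) • g, ?_, ?_⟩
        · rw [mem_ball_zero_iff, norm_smul, hg1]; norm_num
        · have h0 : ‖x‖ ≠ 0 := norm_ne_zero_iff.mpr hx
          have h1 : g x ≠ 0 := by rw [hg2]; simpa using hx
          show ((1/2 : ℝ) • g) x * ((1/2 : ℝ) • g) x ≠ 0
          rw [smul_apply, smul_eq_mul]
          positivity
      refine lt_of_lt_of_le (hU.measure_pos μ hne) (measure_mono ?_)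
      intro φ hφ
      exact ⟨hφ.2, Metric.ball_subset_closedBall hφ.1⟩
    · exact Filter.Eventually.of_forall (fun φ => mul_self_nonneg _)
    · exact hint x x
  · intro v φ hv x
    obtain ⟨h1, h2, h3⟩ := hv
    -- the reflection acting on the dual
    let A : E →L[ℝ] E := ContinuousLinearMap.id ℝ E - (2 : ℝ) • (φ.smulRight v)
    have hA : ∀ y, A y = y - (2 * φ y) • v := by
      intro y
      simp [A, smul_smul]
    have hAA : ∀ y, A (A y) = y := by
      intro y
      rw [hA (A y), hA y, map_sub, map_smul, h2, smul_eq_mul, mul_one]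
      module
    have hAn : ∀ y, ‖A y‖ = ‖y‖ := by intro y; rw [hA]; exact h3 y
    let T : (E →L[ℝ] ℝ) →ₗ[ℝ] (E →L[ℝ] ℝ) :=
      { toFun := fun ψ => ψ.comp A
        map_add' := by intro a b; ext y; simp
        map_smul' := by intro c a; ext y; simp }
    have hT : ∀ ψ y, T ψ y = ψ (A y) := fun ψ y => rfl
    have hTT : T * T = 1 := by
      ext ψ y
      simp only [Module.End.mul_apply, hT, Module.End.one_apply, hAA]
    have hdet : LinearMap.det T * LinearMap.det T = 1 := by
      rw [← map_mul, hTT, map_one]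
    have hdet' : |(LinearMap.det T)⁻¹| = 1 := by
      have := mul_self_eq_one_iff.mp hdet
      rcases this with h | h <;> rw [h] <;> norm_num
    have hdet0 : LinearMap.det T ≠ 0 := by
      intro h0; rw [h0] at hdet; norm_num at hdet
    have hmap : Measure.map T μ = μ := by
      have := Measure.map_linearMap_addHaar_eq_smul_addHaar μ hdet0
      rw [this, hdet', ENNReal.ofReal_one, one_smul]
    have hTc : Continuous T := LinearMap.continuous_of_finiteDimensional T
    have hTm : MeasurePreserving T μ μ := ⟨hTc.measurable, hmap⟩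
    have hTS : ∀ ψ, T ψ ∈ S ↔ ψ ∈ S := by
      have key : ∀ ψ, ψ ∈ S → T ψ ∈ S := by
        intro ψ hψ
        have h5 : ‖ψ‖ ≤ 1 := by simpa [S] using hψ
        have : ‖T ψ‖ ≤ 1 := by
          refine ContinuousLinearMap.opNorm_le_bound _ zero_le_one (fun y => ?_)
          rw [hT]
          calc ‖ψ (A y)‖ ≤ ‖ψ‖ * ‖A y‖ := ψ.le_opNorm _
            _ ≤ 1 * ‖y‖ := by rw [hAn]; gcongr
        simpa [S] using this
      intro ψ
      refine ⟨fun h => ?_, key ψ⟩
      have h6 := key _ h
      have h7 : T (T ψ) = ψ := by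
        have := congrArg (fun f => f ψ) hTT
        simpa using this
      rwa [h7] at h6
    have hemb : MeasurableEmbedding T := by
      have hcc : Function.LeftInverse T T := by
        intro ψ
        have := congrArg (fun f => f ψ) hTT
        simpa using this
      let e : (E →L[ℝ] ℝ) ≃ₜ (E →L[ℝ] ℝ) :=
        { toFun := T, invFun := T, left_inv := hcc, right_inv := hcc,
          continuous_toFun := hTc, continuous_invFun := hTc }
      exact e.measurableEmbedding
    have hinv : ∀ y z, B (A y) (A z) = B y z := by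
      intro y z
      rw [hB, hB]
      have h8 := hTm.setIntegral_preimage_emb hemb (fun ψ => ψ y * ψ z) S
      have h9 : T ⁻¹' S = S := by
        ext ψ; exact hTS ψ
      rw [h9] at h8
      rw [← h8]
      rfl
    have h10 := hinv x v
    have h11 : A v = -v := by rw [hA, h2]; module
    rw [h11, hA, map_neg, map_sub, LinearMap.sub_apply, map_smul, LinearMap.smul_apply,
      smul_eq_mul] at h10
    linarith

end form

end Pool.Agent.H42.BH
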