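import Mathlib

/-! Dot products, mirrors and rotations in coordinates. -/

set_option linter.unusedSimpArgs false

open Matrix

namespace Pool.Agent.H42.BH

section sig
variable {n : ℕ}

/-- The mirror map `w ↦ w - 2 ⟨w,u⟩ u`. -/
def sig (u : Fin n → ℝ) : (Fin n → ℝ) →ₗ[ℝ] (Fin n → ℝ) where
  toFun := fun w => w - (2 * (w ⬝ᵥ u)) • u
  map_add' := by
    intro x y
    rw [add_dotProduct]; module
  map_smul' := by
    intro c x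
    rw [smul_dotProduct, smul_eq_mul, RingHom.id_apply]; module

lemma sig_apply (u w : Fin n → ℝ) : sig u w = w - (2 * (w ⬝ᵥ u)) • u := rfl

lemma sig_dot (u : Fin n → ℝ) (x y : Fin n → ℝ) :
    sig u x ⬝ᵥ y = x ⬝ᵥ sig u y := by
  rw [sig_apply, sig_apply, sub_dotProduct, dotProduct_sub, smul_dotProduct, dotProduct_smul,
    smul_eq_mul, smul_eq_mul, dotProduct_comm u y]
  ring

lemma sig_sig (u : Fin n → ℝ) (hu : u ⬝ᵥ u = 1) (x : Fin n → ℝ) : sig u (sig u x) = x := by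
  rw [sig_apply u (sig u x), sig_apply u x, sub_dotProduct, smul_dotProduct, smul_eq_mul, hu]
  module

lemma sig_dot_sig (u : Fin n → ℝ) (hu : u ⬝ᵥ u = 1) (x y : Fin n → ℝ) :
    sig u x ⬝ᵥ sig u y = x ⬝ᵥ y := by
  rw [sig_dot, sig_sig u hu]

lemma sig_conj (u v : Fin n → ℝ) (hu : u ⬝ᵥ u = 1) (x : Fin n → ℝ) :
    sig (sig u v) x = sig u (sig v (sig u x)) := by
  rw [sig_apply (sig u v) x, sig_apply v (sig u x), map_sub, map_smul, sig_sig u hu,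
    ← sig_dot]

end sig

section rot

lemma cross_coord (u v : Fin 3 → ℝ) : u ⨯₃ v = ![u 1 * v 2 - u 2 * v 1, u 2 * v 0 - u 0 * v 2,
    u 0 * v 1 - u 1 * v 0] := rfl

lemma cr0 (u v : Fin 3 → ℝ) : (u ⨯₃ v) 0 = u 1 * v 2 - u 2 * v 1 := rfl
lemma cr1 (u v : Fin 3 → ℝ) : (u ⨯₃ v) 1 = u 2 * v 0 - u 0 * v 2 := rfl
lemma cr2 (u v : Fin 3 → ℝ) : (u ⨯₃ v) 2 = u 0 * v 1 - u 1 * v 0 := rfl
lemma dot3 (u v : Fin 3 → ℝ) : u ⬝ᵥ v = u 0 * v 0 + u 1 * v 1 + u 2 * v 2 := by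
  rw [dotProduct, Fin.sum_univ_three]

lemma forall_fin3 {P : Fin 3 → Prop} (h0 : P 0) (h1 : P 1) (h2 : P 2) : ∀ i, P i := by
  intro i
  fin_cases i
  · exact h0
  · exact h1
  · exact h2

/-- rotation (Rodrigues formula) -/
def rot (C S : ℝ) (u : Fin 3 → ℝ) : (Fin 3 → ℝ) →ₗ[ℝ] (Fin 3 → ℝ) where
  toFun := fun x => C • x + S • (u ⨯₃ x) + ((1 - C) * (u ⬝ᵥ x)) • u
  map_add' := by
    intro x y
    rw [dotProduct_add, map_add]; module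
  map_smul' := by
    intro c x
    rw [dotProduct_smul, map_smul, smul_eq_mul, RingHom.id_apply]; module

lemma rot_apply (C S : ℝ) (u x : Fin 3 → ℝ) :
    rot C S u x = C • x + S • (u ⨯₃ x) + ((1 - C) * (u ⬝ᵥ x)) • u := rfl

lemma rot_mul (C S C' S' : ℝ) (u x : Fin 3 → ℝ) (hu : u ⬝ᵥ u = 1) :
    rot C S u (rot C' S' u x) = rot (C * C' - S * S') (S * C' + C * S') u x := by
  have key : ∀ i, (rot C S u (rot C' S' u x)) i - (rot (C * C' - S * S') (S * C' + C * S') u x) i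
      = (-(S * S') * x i + (1 - C) * (1 - C') * (u ⬝ᵥ x) * u i) * (u ⬝ᵥ u - 1) := by
    refine forall_fin3 ?_ ?_ ?_ <;> simp only [rot_apply, sig_apply, Pi.add_apply, Pi.sub_apply, Pi.smul_apply, Pi.neg_apply, smul_eq_mul, dot3, cr0, cr1, cr2] <;> ring
  ext i
  have := key i
  rw [hu, sub_self, mul_zero] at this
  linarith

lemma rot_dot (C S : ℝ) (u x y : Fin 3 → ℝ) (hu : u ⬝ᵥ u = 1) (hC : C ^ 2 + S ^ 2 = 1) :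
    rot C S u x ⬝ᵥ rot C S u y = x ⬝ᵥ y := by
  have key : rot C S u x ⬝ᵥ rot C S u y - x ⬝ᵥ y =
      (S ^ 2 * (x ⬝ᵥ y) + (1 - C) ^ 2 * (u ⬝ᵥ x) * (u ⬝ᵥ y)) * (u ⬝ᵥ u - 1) +
      (x ⬝ᵥ y - (u ⬝ᵥ x) * (u ⬝ᵥ y)) * (C ^ 2 + S ^ 2 - 1) := by
    simp only [rot_apply, sig_apply, Pi.add_apply, Pi.sub_apply, Pi.smul_apply, Pi.neg_apply, smul_eq_mul, dot3, cr0, cr1, cr2]; ring
  rw [hu, hC] at key
  linarith

lemma rot_cross (C S : ℝ) (u x y : Fin 3 → ℝ) (hu : u ⬝ᵥ u = 1) (hC : C ^ 2 + S ^ 2 = 1) :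
    rot C S u x ⨯₃ rot C S u y = rot C S u (x ⨯₃ y) := by
  have key : ∀ i, (rot C S u x ⨯₃ rot C S u y) i - (rot C S u (x ⨯₃ y)) i =
      (C * (1 - C) * (x ⨯₃ y) i + S * (1 - C) * (u ⨯₃ (x ⨯₃ y)) i) * (u ⬝ᵥ u - 1) +
      ((u ⬝ᵥ (x ⨯₃ y)) * u i) * (C ^ 2 + S ^ 2 - 1) := by
    refine forall_fin3 ?_ ?_ ?_ <;> simp only [rot_apply, sig_apply, Pi.add_apply, Pi.sub_apply, Pi.smul_apply, Pi.neg_apply, smul_eq_mul, dot3, cr0, cr1, cr2] <;> ring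
  ext i
  have := key i
  rw [hu, hC] at this
  linarith

lemma rot_one (u x : Fin 3 → ℝ) : rot 1 0 u x = x := by
  rw [rot_apply]; simp

lemma rot_inv (C S : ℝ) (u x : Fin 3 → ℝ) (hu : u ⬝ᵥ u = 1) (hC : C ^ 2 + S ^ 2 = 1) :
    rot C S u (rot C (-S) u x) = x := by
  rw [rot_mul _ _ _ _ _ _ hu]
  have h1 : C * C - S * -S = 1 := by nlinarith
  have h2 : S * C + C * -S = 0 := by ring
  rw [h1, h2, rot_one]

lemma rot_neg (C S : ℝ) (u x : Fin 3 → ℝ) : rot C S (-u) x = rot C (-S) u x := by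
  funext i
  revert i
  refine forall_fin3 ?_ ?_ ?_ <;> simp only [rot_apply, sig_apply, Pi.add_apply, Pi.sub_apply, Pi.smul_apply, Pi.neg_apply, smul_eq_mul, dot3, cr0, cr1, cr2] <;> ring

lemma rot_conj (C S C' S' : ℝ) (u v x : Fin 3 → ℝ) (hu : u ⬝ᵥ u = 1) (hC : C ^ 2 + S ^ 2 = 1) :
    rot C' S' (rot C S u v) x = rot C S u (rot C' S' v (rot C (-S) u x)) := by
  obtain ⟨y, hy⟩ : ∃ y, y = rot C (-S) u x := ⟨_, rfl⟩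
  have hx : x = rot C S u y := by rw [hy, rot_inv C S u x hu hC]
  rw [← hy, hx, rot_apply C' S', rot_cross C S u v y hu hC, rot_dot C S u v y hu hC,
    rot_apply C' S' v y, map_add, map_add, map_smul, map_smul, map_smul]

lemma sig_cross (g a b : Fin 3 → ℝ) (hg : g ⬝ᵥ g = 1) :
    sig g a ⨯₃ sig g b = - sig g (a ⨯₃ b) := by
  have key : ∀ i, (sig g a ⨯₃ sig g b) i + (sig g (a ⨯₃ b)) i =
      (-2 * (a ⨯₃ b) i) * (g ⬝ᵥ g - 1) := by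
    refine forall_fin3 ?_ ?_ ?_ <;> simp only [rot_apply, sig_apply, Pi.add_apply, Pi.sub_apply, Pi.smul_apply, Pi.neg_apply, smul_eq_mul, dot3, cr0, cr1, cr2] <;> ring
  ext i
  have := key i
  rw [hg, sub_self, mul_zero] at this
  simp only [Pi.neg_apply]
  linarith

lemma sig_rot (C S : ℝ) (g u x : Fin 3 → ℝ) (hg : g ⬝ᵥ g = 1) :
    rot C (-S) (sig g u) x = sig g (rot C S u (sig g x)) := by
  obtain ⟨y, hy⟩ : ∃ y, y = sig g x := ⟨_, rfl⟩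
  have hx : x = sig g y := by rw [hy, sig_sig g hg]
  rw [← hy, hx, rot_apply C (-S), rot_apply C S, sig_cross g u y hg, sig_dot_sig g hg,
    map_add, map_add, map_smul, map_smul, map_smul]
  module

lemma sig_sig_eq_rot (e f : Fin 3 → ℝ) (s : ℝ) (he : e ⬝ᵥ e = 1) (hf : f ⬝ᵥ f = 1)
    (hs : s ≠ 0) (hs2 : s ^ 2 = 1 - (e ⬝ᵥ f) ^ 2) (x : Fin 3 → ℝ) :
    sig e (sig f x) = rot (2 * (e ⬝ᵥ f) ^ 2 - 1) (2 * (e ⬝ᵥ f) * s) ((-s⁻¹) • (e ⨯₃ f)) x := by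
  have h1 : rot (2 * (e ⬝ᵥ f) ^ 2 - 1) (2 * (e ⬝ᵥ f) * s) ((-s⁻¹) • (e ⨯₃ f)) x =
      (2 * (e ⬝ᵥ f) ^ 2 - 1) • x - (2 * (e ⬝ᵥ f)) • ((e ⨯₃ f) ⨯₃ x) +
        (2 * ((e ⨯₃ f) ⬝ᵥ x)) • (e ⨯₃ f) := by
    rw [rot_apply, map_smul, LinearMap.smul_apply, smul_dotProduct, smul_eq_mul]
    have e1 : (2 * (e ⬝ᵥ f) * s) • (-s⁻¹) • ((e ⨯₃ f) ⨯₃ x) =
        -((2 * (e ⬝ᵥ f)) • ((e ⨯₃ f) ⨯₃ x)) := by
      rw [smul_smul, ← neg_smul]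
      congr 1
      field_simp
    have e2 : ((1 - (2 * (e ⬝ᵥ f) ^ 2 - 1)) * (-s⁻¹ * ((e ⨯₃ f) ⬝ᵥ x))) • (-s⁻¹) • (e ⨯₃ f) =
        (2 * ((e ⨯₃ f) ⬝ᵥ x)) • (e ⨯₃ f) := by
      rw [smul_smul]
      congr 1
      have : (1 - (2 * (e ⬝ᵥ f) ^ 2 - 1)) = 2 * s ^ 2 := by rw [hs2]; ring
      rw [this]
      field_simp
    rw [e1, e2]
    module
  rw [h1]
  have key : ∀ i, (sig e (sig f x)) i - ((2 * (e ⬝ᵥ f) ^ 2 - 1) • x -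
        (2 * (e ⬝ᵥ f)) • ((e ⨯₃ f) ⨯₃ x) + (2 * ((e ⨯₃ f) ⬝ᵥ x)) • (e ⨯₃ f)) i =
        (-2 * (f ⬝ᵥ f) * x i + 2 * (f ⬝ᵥ x) * f i) * (e ⬝ᵥ e - 1) +
        (-2 * x i + 2 * (e ⬝ᵥ x) * e i) * (f ⬝ᵥ f - 1) := by
    refine forall_fin3 ?_ ?_ ?_ <;> simp only [rot_apply, sig_apply, Pi.add_apply, Pi.sub_apply, Pi.smul_apply, Pi.neg_apply, smul_eq_mul, dot3, cr0, cr1, cr2] <;> ring
  ext i
  have := key i
  rw [he, hf] at this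
  linarith

lemma cross_dot_self (e f : Fin 3 → ℝ) :
    (e ⨯₃ f) ⬝ᵥ (e ⨯₃ f) = (e ⬝ᵥ e) * (f ⬝ᵥ f) - (e ⬝ᵥ f) ^ 2 := by
  simp only [rot_apply, sig_apply, Pi.add_apply, Pi.sub_apply, Pi.smul_apply, Pi.neg_apply, smul_eq_mul, dot3, cr0, cr1, cr2]; ring

lemma gram (u v x : Fin 3 → ℝ) (hu : u ⬝ᵥ u = 1) (hv : v ⬝ᵥ v = 1) (hx : x ⬝ᵥ x = 1) :
    (v ⬝ᵥ x - (u ⬝ᵥ v) * (u ⬝ᵥ x)) ^ 2 + ((u ⨯₃ v) ⬝ᵥ x) ^ 2 =
      (1 - (u ⬝ᵥ v) ^ 2) * (1 - (u ⬝ᵥ x) ^ 2) := by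
  have key : ((u ⨯₃ v) ⬝ᵥ x) ^ 2 = (u ⬝ᵥ u) * (v ⬝ᵥ v) * (x ⬝ᵥ x) +
      2 * (u ⬝ᵥ v) * (v ⬝ᵥ x) * (u ⬝ᵥ x) - (u ⬝ᵥ u) * (v ⬝ᵥ x) ^ 2 -
      (v ⬝ᵥ v) * (u ⬝ᵥ x) ^ 2 - (x ⬝ᵥ x) * (u ⬝ᵥ v) ^ 2 := by
    simp only [rot_apply, sig_apply, Pi.add_apply, Pi.sub_apply, Pi.smul_apply, Pi.neg_apply, smul_eq_mul, dot3, cr0, cr1, cr2]; ring
  rw [key, hu, hv, hx]; ring

lemma dot_rot (C S : ℝ) (u v : Fin 3 → ℝ) (hu : u ⬝ᵥ u = 1) :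
    u ⬝ᵥ rot C S v u = C + (1 - C) * (u ⬝ᵥ v) ^ 2 := by
  rw [rot_apply, dotProduct_add, dotProduct_add, dotProduct_smul, dotProduct_smul,
    dotProduct_smul, hu, dot_cross_self, dotProduct_comm v u]
  simp only [smul_eq_mul]
  ring

lemma rot_dot_right (C S : ℝ) (u v x : Fin 3 → ℝ) :
    rot C S u v ⬝ᵥ x = (u ⬝ᵥ v) * (u ⬝ᵥ x) + C * (v ⬝ᵥ x - (u ⬝ᵥ v) * (u ⬝ᵥ x)) +
      S * ((u ⨯₃ v) ⬝ᵥ x) := by
  rw [rot_apply, add_dotProduct, add_dotProduct, smul_dotProduct, smul_dotProduct,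
    smul_dotProduct]
  simp only [smul_eq_mul]
  ring

/-- a linear combination of cosine and sine along multiples of a small angle -/
lemma exists_multiple (β P Q : ℝ) (hβ : 0 < β) (hβ' : β ≤ Real.pi / 3) :
    ∃ k : ℕ, Real.sqrt (P ^ 2 + Q ^ 2) / 2 ≤ Real.cos (k * β) * P + Real.sin (k * β) * Q := by
  set z : ℂ := ⟨P, Q⟩ with hz
  have hn : ‖z‖ = Real.sqrt (P ^ 2 + Q ^ 2) := by
    rw [Complex.norm_eq_sqrt_sq_add_sq]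
  have hre : ‖z‖ * Real.cos z.arg = P := Complex.norm_mul_cos_arg z
  have him : ‖z‖ * Real.sin z.arg = Q := Complex.norm_mul_sin_arg z
  set γ : ℝ := z.arg + 2 * Real.pi with hγ
  have hγ0 : 0 ≤ γ := by
    have := Complex.neg_pi_lt_arg z
    have := Real.pi_pos
    rw [hγ]; linarith
  have hc : Real.cos γ = Real.cos z.arg := by rw [hγ, Real.cos_add_two_pi]
  have hs : Real.sin γ = Real.sin z.arg := by rw [hγ, Real.sin_add_two_pi]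
  refine ⟨⌊γ / β⌋₊, ?_⟩
  set k := ⌊γ / β⌋₊ with hk
  have h1 : (k : ℝ) * β ≤ γ := by
    have := Nat.floor_le (div_nonneg hγ0 hβ.le)
    rw [← hk] at this
    rwa [le_div_iff₀ hβ] at this
  have h2 : γ < (k + 1) * β := by
    have := Nat.lt_floor_add_one (γ / β)
    rw [← hk] at this
    rwa [div_lt_iff₀ hβ] at this
  have h3 : 1 / 2 ≤ Real.cos (γ - k * β) := by
    rw [← Real.cos_pi_div_three]
    apply Real.cos_le_cos_of_nonneg_of_le_pi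
    · linarith
    · have := Real.pi_pos; linarith
    · linarith
  have h4 : Real.cos (k * β) * P + Real.sin (k * β) * Q = ‖z‖ * Real.cos (γ - k * β) := by
    rw [Real.cos_sub, hc, hs]
    conv_lhs => rw [← hre, ← him]
    ring
  rw [h4, ← hn]
  have h5 : 0 ≤ ‖z‖ := norm_nonneg _
  nlinarith

end rot

end Pool.Agent.H42.BH
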